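import Mathlib
import Pool.Agent.Lib.MP_d9b9c4_co.Defs
import Pool.Agent.Lib.MP_d9b9c4_co.Glue

namespace Pool.Agent.Results.MP_d9b9c4_co.TypeOne

open Pool.Agent.Lib.MP_d9b9c4_co

/-- **Q1 holds.** For every positive integer `n` divisible by `8`, every nontrivially unstable
circulant graph `Cay(ℤ_n, S)` is of Type I. -/
theorem result (n : ℕ) (hn : 0 < n) (h8 : 8 ∣ n) (S : ConnSet n)
    (hS : NontriviallyUnstable (Cay S)) : TypeI S :=
  typeI_of hn h8 S hS

end Pool.Agent.Results.MP_d9b9c4_co.TypeOne
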